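import Pool.Agent.Helper29.MX.St2
import Pool.Agent.Helper71.VIS.Trk
import Pool.Agent.Helper99.MX.Frk

/-! ROW TRY, part 1 (`tot_trn`): exact total numbers of truncations. Frames of labels are frames of the truncated labels;
the box of a frame bounds the volume of the hull of K-labels from above, the inequality of the volumes of truncations
(helper71) from below. -/

set_option autoImplicit false

namespace Pool.Agent.Helper50.TRY

open Finset Filter Topology Matrix MvPolynomial Pool.Agent.Helper69.RK Pool.Agent.Helper31.EC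
open Pool.Agent.Helper31.EC.Sp
open Pool.Agent.Helper40.EL Pool.Agent.Helper89.LX Pool.Agent.Helper3.LF Pool.Agent.Helper84.MT
open Pool.Agent.Helper95.LF Pool.Agent.Helper36.AM Pool.Agent.Helper7.GZ
open Pool.Agent.Helper52.SL (untF tnF untL tnL nul_trn cellv_chg untF_leak tnF_leak)
open Pool.Agent.Helper7.RD (FD0 volC volCO volC_le_of volCO_le volCO_le_M upz)
open Pool.Agent.Helper87.NSL (cndR KnS)
open Pool.Agent.Helper71.VIS (fcs cnw cndR_fcs cndR_trn tnL_kz volKO_trn)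
open Pool.Agent.Helper99.MX (exists_unit)
open Pool.Agent.Helper29.MX

noncomputable section

variable {S : Sp} {M D : ℕ} {κ ι : Type} {E : ℕ → ℕ}

/-! ### frames of truncated labels -/

/-- FRAMES DOWNWARDS: the same charts and the same coordinates, exponents divided by `e` -/
def frd {Q : S.VV M} {l : Lab S} {La La' : Fin M → ℝ} {e : ℝ} (he : 0 < e) (h1 : e ≤ 1)
    (hL : ∀ j, La j = e * La' j) (f : Frm Q l La) : Frm (Q.chg S.tr e he) (tnL e he l) La' where
  X := ⟨fun k (ω : (l k).T.Ω) => f.X.v k ω, by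
    obtain ⟨K, hK, hb⟩ := f.X.bd
    exact ⟨K, (sp_Sub (tnL e he l)).mpr (chg_sub S.tr e he ((sp_Sub l).mp hK)), hb⟩⟩
  P := fun k (ω : (l k).T.Ω) => f.P k ω
  tri := fun k ω => f.tri k ω
  red := fun k ω j a ha h0 => by
    have h2 := f.red k ω j a ha h0
    rw [hL j] at h2
    have h3 : ∑ i, (a i : ℝ) * La i = e * ∑ i, (a i : ℝ) * La' i := by
      rw [Finset.mul_sum]
      exact Finset.sum_congr rfl fun i _ => by rw [hL i]; ring
    rw [h3] at h2
    exact lt_of_mul_lt_mul_left h2 he.le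
  fn := by
    filter_upwards [f.fn] with k hk ω ω' a b hZ hV
    exact hk ω ω' a b hZ hV
  bd := by
    obtain ⟨K, hK, hb⟩ := f.bd
    exact ⟨K, chg_sub S.tr e he hK, hb⟩
  pt := by
    obtain ⟨K, hK, hb⟩ := f.pt
    refine ⟨K, chg_sub S.tr e he hK, ?_⟩
    filter_upwards [hb, hK.1] with k hk h0 ω hω j
    have h2 := hk ω hω j
    have e1 : ∀ i, (S.chg S.tr e he).dl (La' i) k = S.dl (La i) k := fun i => by rw [chg_dl, hL i]
    have e2 : (S.chg S.tr e he).dl 1 k = S.dl e k := by rw [chg_dl, mul_one]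
    have h3 : S.dl 1 k ≤ S.dl e k := S.dl_anti h1 k
    have h4 := h2.trans (mul_le_mul_of_nonneg_left h3 h0)
    rw [e2, e1 j]
    have e3 : (fun i => (S.chg S.tr e he).dl (La' i) k * f.X.v k ω i) = fun i => S.dl (La i) k * f.X.v k ω i :=
      funext fun i => by rw [e1 i]
    exact (le_of_eq (congrArg (fun z => |Q.v k ((l k).p.π ω) j - (MvPolynomial.eval z (f.P k ω j) +
      S.dl (La j) k * f.X.v k ω j)|) e3)).trans h4

/-- THE BOX OF A FRAME bounds the volume of the hull -/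
theorem volCO_le_frm {Q : S.VV M} {l : Lab S} {La : Fin M → ℝ} (f : Frm Q l La) {p : ℕ}
    (hp : ∀ k ω j, (f.P k ω j).totalDegree ≤ p) (h0 : ∀ j, 0 ≤ La j) (h1 : ∀ j, La j < 1) [Finite κ]
    {A : κ → Part S} (hl : l.DMf A) {C : Part S} (hC : (LC.kz C).ev l) :
    volCO (LC.kz C) A Q ≤ M - ∑ j, La j := by
  obtain ⟨e, he, he1, hLe⟩ := exists_unit La h1
  have h2 := FD0.volCO_le (F := ⟨f, 0, e, le_rfl, he, by linarith, h0, hLe, p, hp⟩) (A := A)
    (B := fun i => l.up e he (A i)) hl (fun i => ⟨i, PLe.refl _⟩) hC (X := f.X.chg l.V e he)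
    (FD0.isX_of _ ⟨fun _ => 0, S.Sub_const le_rfl, Eventually.of_forall fun k ω _ j => by
      have h3 : (f.X.chg l.V e he).v k ω j = f.X.v k ω j := rfl
      rw [h3, sub_self, abs_zero, zero_mul]⟩)
  have h3 : volCO (LC.kz (l.up e he C)) (fun i => l.up e he (A i)) (f.X.chg l.V e he) ≤ M := volCO_le_M
  have h4 : volCO (LC.kz C) A Q ≤ M - ∑ j, La j - e * (M - volCO (LC.kz (l.up e he C))
    (fun i => l.up e he (A i)) (f.X.chg l.V e he)) := h2
  have h5 := mul_nonneg he.le (sub_nonneg.2 h3)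
  linarith

/-! ### K-labels of truncations -/

theorem dmf_fcs_tn {B : κ → ∀ k, Setoid (S.F k).Ω} {e : ℝ} {he : 0 < e} {l : Lab S} (h : l.DMf (fcs S B)) :
    (tnL e he l).DMf (fcs (S.chg S.tr e he) B) := fun i => nul_trn.mpr (h i)

/-- K-LABELS DOWNWARDS -/
theorem klb_trn (s : MSys S M E ι) {e : ℝ} (he : 0 < e) (h1 : e ≤ 1) (R : Rsl S) (c : ℝ) {l : Lab S}
    (h : KLb s R (e * c) l) : KLb (s.trn e he h1) R c (tnL e he l) := by
  refine ⟨?_, tnL_kz.2 h.2⟩
  have h2 := h.1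
  rw [cndR_fcs] at h2
  rw [cndR_trn]
  exact dmf_fcs_tn h2

variable [Finite ι]

/-- the volume of the hull of the truncation from a frame of a K-label -/
theorem volKO_trn_le {s : MSys S M E ι} {e : ℝ} (he : 0 < e) (h1 : e ≤ 1) {R : Rsl S} {w : Fin M → ℝ}
    (hw : ∀ i, 1 ≤ w i) {c : ℝ} (hc : 0 ≤ c) (hwc : ∀ i, w i * c < 1) {l : Lab S} (hl : KLb s R (e * c) l)
    (f : Frm s.Q l fun j => w j * (e * c)) : volKO (s.trn e he h1) R c ≤ M - (∑ i, w i) * c := by
  obtain ⟨W, hW⟩ : ∃ W : ℕ, ∀ j, w j ≤ W := ⟨⌈∑ j, w j⌉₊, fun j =>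
    (Finset.single_le_sum (f := w) (fun i _ => zero_le_one.trans (hw i)) (Finset.mem_univ j)).trans (Nat.le_ceil _)⟩
  have hk := klb_trn s he h1 R c hl
  refine (volKO_eq (s.trn e he h1) R c).trans_le ?_
  refine (volCO_le_frm (Q := (s.trn e he h1).Q) (l := tnL e he l) (La := fun j => w j * c)
    (frd he h1 (fun j => by ring) f) (p := W) ?_ ?_ hwc hk.1 hk.2).trans (le_of_eq ?_)
  · intro k ω j
    exact Pool.Agent.Helper7.RD.frm_degW f (mul_nonneg he.le hc) hw hW k ω j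
  · intro j
    exact mul_nonneg (zero_le_one.trans (hw j)) hc
  · rw [Finset.sum_mul]

/-- **EXACT TOTAL NUMBERS OF TRUNCATIONS** -/
theorem tot_trn {s : MSys S M E ι} {e : ℝ} (he : 0 < e) (h1 : e ≤ 1) {R : Rsl S} {w : Fin M → ℝ} (hw : ∀ i, 1 ≤ w i)
    (ht : Tot w s R) (hc : Car w s R) : Tot w (s.trn e he h1) R := by
  intro c c0 hwc
  have hc' : 0 ≤ e * c := mul_nonneg he.le c0
  have hwc' : ∀ i, w i * (e * c) < 1 := fun i => by
    have h2 : w i * (e * c) = e * (w i * c) := by ring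
    have h3 : 0 ≤ w i * c := mul_nonneg (zero_le_one.trans (hw i)) c0
    have h4 := mul_le_of_le_one_left h3 h1
    rw [h2]
    exact h4.trans_lt (hwc i)
  obtain ⟨X, hX⟩ := hc (e * c) hc' hwc'
  obtain ⟨f⟩ := hX.fr
  apply le_antisymm
  · exact volKO_trn_le he h1 hw c0 hwc hX.kl f
  · have h2 := volKO_trn s he h1 R c
    rw [ht (e * c) hc' hwc'] at h2
    have h3 : e * ((M : ℝ) - volKO (s.trn e he h1) R c) ≤ e * ((∑ i, w i) * c) := by
      refine h2.trans (le_of_eq ?_)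
      ring
    have h4 := le_of_mul_le_mul_left h3 he
    linarith

/-- the same on all events of all extensions -/
theorem tot_trn_all {N : ℕ} {s : MSys S N E ι} {e : ℝ} (he : 0 < e) (h1 : e ≤ 1) {R : Rsl S} {w : Fin N → ℝ}
    (hw : ∀ i, 1 ≤ w i) (ht : AllE (fun _ t R => Tot w t R) S s R) (hc : AllE (fun _ t R => Car w t R) S s R) :
    AllE (fun _ t R => Tot w t R) (S.chg S.tr e he) (s.trn e he h1) R :=
  Pool.Agent.Helper71.VIS.AllE_trn (P := fun _ t R => Tot w t R ∧ Car w t R) he h1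
    (fun _ _ _ h => tot_trn he h1 hw h.1 h.2) fun T p A hA => ⟨ht T p A hA, hc T p A hA⟩

end

end Pool.Agent.Helper50.TRY
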